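import Pool.Agent.Y219.EGH.Hf

/-!
Lengths of Gorenstein quotients by forms of degree at most `a` without common zeros whose socle degree
is between `a - 1` and `2 a - 2`.
-/

open MvPolynomial
open Pool.Agent.W515.SLP (AnnP Deg annP_zero annP_of_gt annP_of_homog)
open H503R3.QCI (Homog comp_mul comp_mul_of_lt gr mem_gr)
open TH130CI

namespace Y219.EGH

lemma sq_sum (m : ℕ) : ∑ i ∈ Finset.range (m + 1), (i + 1) + ∑ j ∈ Finset.range m, (m - j) =
    (m + 1) ^ 2 := by
  have h1 : ∑ j ∈ Finset.range m, (m - j) = ∑ j ∈ Finset.range m, (j + 1) := by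
    rw [← Finset.sum_range_reflect (fun j => j + 1) m]
    refine Finset.sum_congr rfl fun j hj => ?_
    have := Finset.mem_range.mp hj
    omega
  rw [h1, Finset.sum_range_succ]
  have h2 : ∀ m : ℕ, ∑ j ∈ Finset.range m, (j + 1) + ∑ j ∈ Finset.range m, (j + 1) = m * (m + 1) := by
    intro m
    induction m with
    | zero => simp
    | succ m ih =>
      rw [Finset.sum_range_succ]
      have : m * (m + 1) + 2 * (m + 1) = (m + 1) * (m + 1 + 1) := by ring
      omega
  have h3 := h2 m
  have h4 : m * (m + 1) + (m + 1) = (m + 1) ^ 2 := by ring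
  omega

variable {K : Type*} [Field K] {n : ℕ}

/-- **The length of the quotient.** -/
theorem length_bound [Infinite K] {φ : MvPolynomial (Fin n) K →ₗ[K] K} {s a δ : ℕ} (hφ : Deg φ s)
    (hs : s + 2 = a + δ) (hδ1 : 1 ≤ δ) (hδa : δ ≤ a) {G : Set (MvPolynomial (Fin n) K)}
    (hG : ∀ g ∈ G, ∃ d ≤ a, g.IsHomogeneous d) (hGI : ∀ g ∈ G, g ∈ gor φ)
    (hpow : ∀ ℓ : MvPolynomial (Fin n) K, ℓ.IsHomogeneous 1 → ∃ m, ℓ ^ m ∈ Ideal.span G)
    (hne : ∃ g : MvPolynomial (Fin n) K, g.IsHomogeneous s ∧ g ∉ gor φ) :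
    δ * a ≤ Module.finrank K (MvPolynomial (Fin n) K ⧸ gor φ) := by
  have htop : ∀ p, s < p → ∀ h : MvPolynomial (Fin n) K, h.IsHomogeneous p → h ∈ gor φ :=
    fun p hp h hh => annP_of_gt hφ hp hh
  have hsum : Module.finrank K (MvPolynomial (Fin n) K ⧸ gor φ) =
      ∑ i ∈ Finset.range (s + 1), hf φ i := finrank_eq_sum (gor_homog hφ) htop
  have h0 : 1 ≤ hf φ s := by
    rw [Nat.one_le_iff_ne_zero]
    intro h0
    obtain ⟨g, hg, hgI⟩ := hne
    have hfin : Module.Finite K (AA (gor φ) s) := finite_AA' (gor φ) s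
    rw [hf, Submodule.finrank_eq_zero] at h0
    have h1 : Ideal.Quotient.mk (gor φ) g ∈ AA (gor φ) s := mem_AA.mpr ⟨g, hg, rfl⟩
    rw [h0, Submodule.mem_bot] at h1
    exact hgI (Ideal.Quotient.eq_zero_iff_mem.mp h1)
  -- the upper range
  have c1 : ∀ k, k + (a - 1) ≤ s → k + 1 ≤ hf φ (s - k) := by
    intro k
    induction k with
    | zero =>
      intro _
      exact h0
    | succ k ih =>
      intro hk
      have ih' := ih (by omega)
      have e1 : s - (k + 1) + 1 = s - k := by omega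
      rcases Nat.lt_or_ge (s - (k + 1)) (hf φ (s - (k + 1))) with h1 | h1
      · omega
      · obtain ⟨h2, h3⟩ := hf_succ hφ (i := s - (k + 1)) (by omega) (by omega) h1
        rw [e1] at h2 h3
        have h4 := h3 a (by omega) G hG hGI hpow (by omega)
        omega
  -- the lower range
  have c2 : ∀ k, k + (a - 1) ≤ s → k + 1 ≤ hf φ k := by
    intro k hk
    rw [hf_symm hφ (i := k) (j := s - k) (by omega)]
    exact c1 k hk
  -- the middle range
  have c3 : ∀ k, k ≤ a - δ → δ ≤ hf φ (a - 1 - k) := by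
    intro k
    induction k with
    | zero =>
      intro _
      have h1 := c1 (δ - 1) (by omega)
      rw [show s - (δ - 1) = a - 1 - 0 by omega] at h1
      omega
    | succ k ih =>
      intro hk
      have ih' := ih (by omega)
      by_cases hi : a - 1 - (k + 1) = 0
      · have h1 := c2 0 (by omega)
        rw [hi]
        omega
      · have e1 : a - 1 - (k + 1) + 1 = a - 1 - k := by omega
        rcases Nat.lt_or_ge (a - 1 - (k + 1)) (hf φ (a - 1 - (k + 1))) with h1 | h1
        · omega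
        · obtain ⟨h2, -⟩ := hf_succ hφ (i := a - 1 - (k + 1)) (by omega) (by omega) h1
          rw [e1] at h2
          omega
  rw [hsum, show s + 1 = (δ + (a - δ)) + (δ - 1) by omega, Finset.sum_range_add,
    Finset.sum_range_add]
  have s1 : ∑ i ∈ Finset.range δ, (i + 1) ≤ ∑ i ∈ Finset.range δ, hf φ i := by
    refine Finset.sum_le_sum fun i hi => ?_
    have := Finset.mem_range.mp hi
    exact c2 i (by omega)
  have s2 : (a - δ) * δ ≤ ∑ i ∈ Finset.range (a - δ), hf φ (δ + i) := by
    have h1 : ∑ i ∈ Finset.range (a - δ), δ ≤ ∑ i ∈ Finset.range (a - δ), hf φ (δ + i) := by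
      refine Finset.sum_le_sum fun i hi => ?_
      have := Finset.mem_range.mp hi
      have h2 := c3 (a - 1 - (δ + i)) (by omega)
      rwa [show a - 1 - (a - 1 - (δ + i)) = δ + i by omega] at h2
    rwa [Finset.sum_const, Finset.card_range, smul_eq_mul] at h1
  have s3 : ∑ i ∈ Finset.range (δ - 1), (δ - 1 - i) ≤
      ∑ i ∈ Finset.range (δ - 1), hf φ (δ + (a - δ) + i) := by
    refine Finset.sum_le_sum fun i hi => ?_
    have := Finset.mem_range.mp hi
    have h2 := c1 (δ - 2 - i) (by omega)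
    rw [show s - (δ - 2 - i) = δ + (a - δ) + i by omega] at h2
    omega
  have h1 := sq_sum (δ - 1)
  rw [Nat.sub_add_cancel hδ1] at h1
  have h2 : (a - δ) * δ + δ ^ 2 = δ * a := by
    obtain ⟨c, rfl⟩ := Nat.exists_eq_add_of_le hδa
    rw [Nat.add_sub_cancel_left]
    ring
  omega

end Y219.EGH
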