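import Pool.Agent.Y219.EGH.Bound
import Pool.Agent.TH130.CI.Sat

/-!
Degrees of zero-dimensional schemes which fail to impose independent conditions: the first two
intervals of degrees.
-/

open MvPolynomial
open Pool.Agent.W515.SLP (AnnP Deg annP_zero annP_of_gt annP_of_homog)
open H503R3.QCI (Homog comp_mul comp_mul_of_lt gr mem_gr NZD)
open TH130CI

namespace Y219.EGH

variable {K : Type*} [Field K] {n : ℕ}

/-- powers of linear forms -/
lemma pow_lin {J : Ideal (MvPolynomial (Fin n) K)} (h : ∀ i, ∃ m, X i ^ m ∈ J)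
    {ℓ : MvPolynomial (Fin n) K} (hℓ : ℓ.IsHomogeneous 1) : ∃ m, ℓ ^ m ∈ J := by
  have h1 : ℓ ∈ J.radical := by
    rw [ℓ.as_sum]
    refine Ideal.sum_mem _ fun a ha => ?_
    have had : a.degree = 1 := by
      by_contra hne
      exact (mem_support_iff.1 ha) (hℓ.coeff_eq_zero hne)
    have hne : a ≠ 0 := by rintro rfl; simp at had
    obtain ⟨j, hj⟩ := Finsupp.ne_iff.mp hne
    rw [Finsupp.coe_zero, Pi.zero_apply] at hj
    have hle : Finsupp.single j 1 ≤ a := by
      rw [Finsupp.single_le_iff]; omega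
    have h4 : monomial a (coeff a ℓ) = monomial (a - Finsupp.single j 1) (coeff a ℓ) * X j := by
      rw [X, monomial_mul, mul_one, tsub_add_cancel_of_le hle]
    rw [h4]
    exact Ideal.mul_mem_left _ _ (h j)
  exact h1

/-- **Lengths of quotients by homogeneous ideals** which contain forms of degree at most `a` without
common zeros and which are nonzero in degree `s = (a - 1) + (δ - 1)`. -/
theorem length_ideal [Infinite K] {I : Ideal (MvPolynomial (Fin n) K)} (hI : Homog I) {s a δ : ℕ}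
    (hs : s + 2 = a + δ) (hδ1 : 1 ≤ δ) (hδa : δ ≤ a) {G : Set (MvPolynomial (Fin n) K)}
    (hG : ∀ g ∈ G, ∃ d ≤ a, g.IsHomogeneous d) (hGI : ∀ g ∈ G, g ∈ I)
    (hpow : ∀ i, ∃ m, X i ^ m ∈ Ideal.span G)
    (hf : Module.Finite K (MvPolynomial (Fin n) K ⧸ I))
    (hne : ∃ g : MvPolynomial (Fin n) K, g.IsHomogeneous s ∧ g ∉ I) :
    δ * a ≤ Module.finrank K (MvPolynomial (Fin n) K ⧸ I) := by
  obtain ⟨g, hg, hgI⟩ := hne
  obtain ⟨φ, hφ, hle, hφg⟩ := exists_functional hI hg hgI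
  refine le_trans (length_bound hφ hs hδ1 hδa hG (fun g hg => hle (hGI g hg))
    (fun ℓ hℓ => pow_lin hpow hℓ) ⟨g, hg, fun h => hφg ?_⟩) (finrank_le_of_le hle hf)
  have := h 1
  rwa [mul_one] at this

/-- **The degree of a scheme failing to impose independent conditions.** -/
theorem deg_bound2 [Infinite K] {J : Ideal (MvPolynomial (Fin n) K)} (hJ : Homog J)
    {ℓ : MvPolynomial (Fin n) K}
    (hℓ : ℓ.IsHomogeneous 1) (hn : NZD J ℓ) {a δ : ℕ} (hδ1 : 1 ≤ δ) (hδa : δ ≤ a)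
    {G : Set (MvPolynomial (Fin n) K)}
    (hG : ∀ g ∈ G, g ∈ J ∧ ∃ d ≤ a, g.IsHomogeneous d)
    (hm : ∀ i, ∃ m, X i ^ m ∈ Ideal.span G ⊔ Ideal.span {ℓ}) {e N m : ℕ}
    (he : ∀ k ≥ N, Module.finrank K (AA J k) = e) (hlt : Module.finrank K (AA J m) < e)
    (hr : m + 3 = a + δ) : δ * a ≤ e := by
  set I := J ⊔ Ideal.span {ℓ} with hI
  have hIh : Homog I := homog_sup_span hJ hℓ
  have htop : ∀ p, N < p → ∀ g : MvPolynomial (Fin n) K, g.IsHomogeneous p → g ∈ I := by
    intro p hp g hg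
    obtain ⟨k, rfl⟩ : ∃ k, p = k + 1 := ⟨p - 1, by omega⟩
    refine mem_of_finrank_AA ?_ hg
    have h1 := AA_succ hJ hℓ hn k
    rw [he k (by omega), he (k + 1) (by omega)] at h1
    rw [hI]
    omega
  have hsum := finrank_eq_sum hIh htop
  rw [hI, AA_sum hJ hℓ hn, he N le_rfl, ← hI] at hsum
  have hmN : m < N := by
    by_contra hcon
    have := he m (by omega)
    omega
  -- a nonzero piece in degree `m + 1`
  have hne : ∃ g : MvPolynomial (Fin n) K, g.IsHomogeneous (m + 1) ∧ g ∉ I := by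
    by_contra hcon
    push Not at hcon
    have h1 := finrank_eq_sum hIh (s := m) (fun p hp g hg => up_mem hcon (by omega) hg)
    rw [hI, AA_sum hJ hℓ hn, ← hI] at h1
    omega
  rw [← hsum]
  refine length_ideal hIh (s := m + 1) (by omega) hδ1 hδa (G := G ∪ {ℓ}) ?_ ?_ ?_
    (finite_of_top htop) hne
  · rintro x (hx | rfl)
    · exact (hG x hx).2
    · exact ⟨1, by omega, hℓ⟩
  · rintro x (hx | rfl)
    · exact Ideal.mem_sup_left (hG x hx).1
    · exact Ideal.mem_sup_right (Ideal.mem_span_singleton_self _)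
  · intro i
    rw [Ideal.span_union]
    exact hm i

/-- the same for subschemes of a finite scheme in projective space -/
theorem deg_finite {K : Type*} [Field K] [IsAlgClosed K] (c t a δ : ℕ) (hδ1 : 1 ≤ δ) (hδa : δ ≤ a)
    (d : Fin t → ℕ)
    (F : Fin t → MvPolynomial (Fin (c + 1)) K) (hF : ∀ i, (F i).IsHomogeneous (d i))
    (hd : ∀ i, d i ≤ a)
    (hfin : ∀ j, Set.Finite {x : Fin (c + 1) → K | x j = 1 ∧ ∀ i, eval x (F i) = 0})
    (J : Ideal (MvPolynomial (Fin (c + 1)) K)) (hJ : ∀ f ∈ J, ∀ k, homogeneousComponent k f ∈ J)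
    (hsat : ∀ f : MvPolynomial (Fin (c + 1)) K, (∃ N : ℕ, ∀ i, X i ^ N * f ∈ J) → f ∈ J)
    (hFJ : ∀ i, F i ∈ J) (h : ℕ → ℕ)
    (hh : ∀ k, h k = Module.finrank K (homogeneousSubmodule (Fin (c + 1)) K k) -
      Module.finrank K
        ↥(Submodule.restrictScalars K J ⊓ homogeneousSubmodule (Fin (c + 1)) K k))
    (deg : ℕ) (hdeg : ∃ N, ∀ k ≥ N, h k = deg) (m : ℕ) (hm : h m < deg)
    (hr : m + 3 = a + δ) : δ * a ≤ deg := by
  classical
  have : Infinite K := IsAlgClosed.instInfinite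
  obtain ⟨N, hN⟩ := hdeg
  have hAA : ∀ k, Module.finrank K (TH130CI.AA J k) = h k := by
    intro k
    have h1 := TH130CI.finrank_AA (I := J) k
    rw [hh k]
    change _ = _ - Module.finrank K (H503R3.QCI.gr J k)
    omega
  let Z : Finset (Fin (c + 1) → K) := Finset.univ.biUnion fun j => (hfin j).toFinset
  have hZ : ∀ z ∈ Z, z ≠ 0 := by
    rintro z hz rfl
    obtain ⟨j, _, hj⟩ := Finset.mem_biUnion.mp hz
    rw [Set.Finite.mem_toFinset] at hj
    exact zero_ne_one hj.1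
  obtain ⟨q, hq, hqZ⟩ := TH130CI.exists_lin_nzd_avoid (J := J)
    (fun f hf => hsat f ⟨1, fun i => by rw [pow_one]; exact hf i⟩) Z hZ
  set ℓ := TH130CI.linL K (c + 1) q with hℓ
  have hℓ1 : ℓ.IsHomogeneous 1 := TH130CI.linL_homog q
  refine deg_bound2 hJ hℓ1 hq hδ1 hδa (G := Set.range F) ?_ ?_ (N := N) (m := m) ?_ ?_ hr
  · rintro _ ⟨i, rfl⟩
    exact ⟨hFJ i, d i, hd i, hF i⟩
  · intro j
    have h1 : (X j : MvPolynomial (Fin (c + 1)) K) ∈
        (Ideal.span (Set.range F) ⊔ Ideal.span {ℓ}).radical := by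
      rw [← vanishingIdeal_zeroLocus_eq_radical (K := K)]
      intro x hx
      rw [aeval_X]
      by_contra hxj
      have hx1 : ∀ p ∈ Ideal.span (Set.range F) ⊔ Ideal.span {ℓ}, eval x p = 0 := hx
      -- scale so that the `j`-th coordinate is one
      set y : Fin (c + 1) → K := (x j)⁻¹ • x with hy
      have hsc : ∀ (p : MvPolynomial (Fin (c + 1)) K) (e : ℕ), p.IsHomogeneous e →
          eval x p = 0 → eval y p = 0 := by
        intro p e hp hp0
        rw [hy, TH130CI.eval_smul_homog hp, hp0, mul_zero]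
      have hyZ : y ∈ Z := by
        apply Finset.mem_biUnion.mpr
        refine ⟨j, Finset.mem_univ j, ?_⟩
        rw [Set.Finite.mem_toFinset]
        refine ⟨?_, fun i => hsc _ _ (hF i) (hx1 _ (Ideal.mem_sup_left
          (Ideal.subset_span ⟨i, rfl⟩)))⟩
        rw [hy, Pi.smul_apply, smul_eq_mul, inv_mul_cancel₀ hxj]
      exact hqZ y hyZ (hsc _ _ hℓ1 (hx1 _ (Ideal.mem_sup_right (Ideal.mem_span_singleton_self _))))
    obtain ⟨M, hM⟩ := h1
    exact ⟨M, hM⟩
  · intro k hk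
    rw [hAA]
    exact hN k hk
  · rw [hAA]
    exact hm

end Y219.EGH
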