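import Pool.Agent.TH130.CI.Len2

/-!
Persistence: if a linear form acts surjectively from degree `k - 1` to `k` and injectively from `k` to
`k + 1` on a quotient by forms of degree at most `k + 1` which contain a power of it, then the
quotient is zero in degree `k`.
-/

open MvPolynomial

namespace Y219.EGH

variable {K : Type*} [Field K] {n : ℕ}

/-- Persistence for a general linear form. -/
theorem persist_lin {M : Type*} [AddCommGroup M] [Module K M]
    {I : Ideal (MvPolynomial (Fin n) K)} (cc : MvPolynomial (Fin n) K →ₗ[K] M) {k : ℕ}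
    (hk : 1 ≤ k) (P1 : ∀ g : MvPolynomial (Fin n) K, g.IsHomogeneous k → (cc g = 0 ↔ g ∈ I))
    (P2 : ∀ m : M, ∃ g : MvPolynomial (Fin n) K, g.IsHomogeneous k ∧ cc g = m)
    {ℓ : MvPolynomial (Fin n) K} (hℓ : ℓ.IsHomogeneous 1)
    (hs : ∀ h : MvPolynomial (Fin n) K, h.IsHomogeneous k → ∃ b : MvPolynomial (Fin n) K,
      b.IsHomogeneous (k - 1) ∧ h - ℓ * b ∈ I)
    (hi : ∀ g : MvPolynomial (Fin n) K, g.IsHomogeneous k → ℓ * g ∈ I → g ∈ I)
    {G : Set (MvPolynomial (Fin n) K)} (hG : ∀ g ∈ G, ∃ d ≤ k + 1, g.IsHomogeneous d)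
    (hGI : ∀ g ∈ G, g ∈ I) {m : ℕ} (hm : ℓ ^ m ∈ Ideal.span G) (x : M) : x = 0 := by
  classical
  have hL : ∀ {L b : MvPolynomial (Fin n) K}, L.IsHomogeneous 1 → b.IsHomogeneous (k - 1) →
      (L * b).IsHomogeneous k := by
    intro L b hL hb
    have := hL.mul hb
    rwa [show 1 + (k - 1) = k by omega] at this
  have hX : ∀ (j : Fin n) {b : MvPolynomial (Fin n) K}, b.IsHomogeneous (k - 1) →
      (X j * b).IsHomogeneous k := fun j b hb => hL (isHomogeneous_X K j) hb
  -- choice of a representative divided by `ℓ`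
  let U := homogeneousSubmodule (Fin n) K (k - 1)
  let α : MvPolynomial (Fin n) K → U →ₗ[K] M := fun L => (cc ∘ₗ LinearMap.mulLeft K L) ∘ₗ U.subtype
  have hα : ∀ L (b : U), α L b = cc (L * (b : MvPolynomial (Fin n) K)) := fun L b => rfl
  have hsur : Function.Surjective (α ℓ) := by
    intro x
    obtain ⟨g, hg, rfl⟩ := P2 x
    obtain ⟨b, hb, hb'⟩ := hs g hg
    refine ⟨⟨b, hb⟩, ?_⟩
    rw [hα]
    have h1 := (P1 (g - ℓ * b) (hg.sub (hL hℓ hb))).mpr hb'
    rw [map_sub, sub_eq_zero] at h1
    exact h1.symm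
  have hker : ∀ (j : Fin n) (b : U), α ℓ b = 0 → α (X j) b = 0 := by
    intro j b hb
    rw [hα] at hb ⊢
    have hbh : (b : MvPolynomial (Fin n) K).IsHomogeneous (k - 1) := b.2
    rw [P1 _ (hL hℓ hbh)] at hb
    rw [P1 _ (hX _ hbh)]
    apply hi _ (hX _ hbh)
    have h1 : ℓ * (X j * (b : MvPolynomial (Fin n) K)) =
        X j * (ℓ * (b : MvPolynomial (Fin n) K)) := by ring
    rw [h1]
    exact I.mul_mem_left _ hb
  obtain ⟨s, hs'⟩ := (α ℓ).exists_rightInverse_of_surjective (LinearMap.range_eq_top.mpr hsur)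
  let θ : Fin n → Module.End K M := fun j => α (X j) ∘ₗ s
  have hθ : ∀ j (b : U), θ j (α ℓ b) = α (X j) b := by
    intro j b
    have h1 : α ℓ (s (α ℓ b) - b) = 0 := by
      rw [map_sub, sub_eq_zero]
      exact LinearMap.congr_fun hs' (α ℓ b)
    have h2 := hker j _ h1
    rw [map_sub, sub_eq_zero] at h2
    exact h2
  have hθ' : ∀ (j : Fin n) (b : MvPolynomial (Fin n) K), b.IsHomogeneous (k - 1) →
      θ j (cc (ℓ * b)) = cc (X j * b) := fun j b hb => hθ j ⟨b, hb⟩
  have hrep : ∀ x : M, ∃ b : MvPolynomial (Fin n) K, b.IsHomogeneous (k - 1) ∧ cc (ℓ * b) = x := by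
    intro x
    obtain ⟨b, hb⟩ := hsur x
    exact ⟨b, b.2, hb⟩
  have hcomm : ∀ j l, θ j * θ l = θ l * θ j := by
    intro j l
    apply LinearMap.ext
    intro x
    obtain ⟨b, hb, rfl⟩ := hrep x
    rw [Module.End.mul_apply, Module.End.mul_apply, hθ' l b hb, hθ' j b hb]
    obtain ⟨b1, hb1, h1⟩ := hrep (cc (X l * b))
    obtain ⟨b2, hb2, h2⟩ := hrep (cc (X j * b))
    rw [← h1, ← h2, hθ' j b1 hb1, hθ' l b2 hb2]
    rw [← sub_eq_zero, ← map_sub]
    rw [P1 _ ((hX _ hb1).sub (hX _ hb2))]
    apply hi _ ((hX _ hb1).sub (hX _ hb2))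
    have e1 : ℓ * b1 - X l * b ∈ I := by
      rw [← P1 _ ((hL hℓ hb1).sub (hX _ hb)), map_sub, sub_eq_zero]; exact h1
    have e2 : ℓ * b2 - X j * b ∈ I := by
      rw [← P1 _ ((hL hℓ hb2).sub (hX _ hb)), map_sub, sub_eq_zero]; exact h2
    have h3 : ℓ * (X j * b1 - X l * b2) = X j * (ℓ * b1 - X l * b) - X l * (ℓ * b2 - X j * b) := by
      ring
    rw [h3]
    exact I.sub_mem (I.mul_mem_left _ e1) (I.mul_mem_left _ e2)
  obtain ⟨E, hE⟩ := TH130CI.exists_ev θ hcomm
  have hpow : ∀ p, (ℓ ^ p).IsHomogeneous p := by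
    intro p
    have := hℓ.pow p
    rwa [one_mul] at this
  -- the cyclic vector
  set v : M := cc (ℓ ^ k) with hv
  have key : ∀ p, ∀ a : Fin n →₀ ℕ, a.degree = p → p ≤ k →
      E (monomial a 1) v = cc (ℓ ^ (k - p) * monomial a 1) := by
    intro p
    induction p with
    | zero =>
      intro a ha _
      have : a = 0 := (Finsupp.degree_eq_zero_iff a).mp ha
      subst this
      have h1 : (monomial (0 : Fin n →₀ ℕ) (1 : K)) = 1 := rfl
      rw [h1, map_one, Module.End.one_apply, Nat.sub_zero, mul_one]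
    | succ p ih =>
      intro a ha hpk
      have hne : a ≠ 0 := by rintro rfl; simp at ha
      obtain ⟨j, hj⟩ := Finsupp.ne_iff.mp hne
      rw [Finsupp.coe_zero, Pi.zero_apply] at hj
      have hle : Finsupp.single j 1 ≤ a := by
        rw [Finsupp.single_le_iff]; omega
      have h1 : a = (a - Finsupp.single j 1) + Finsupp.single j 1 := (tsub_add_cancel_of_le hle).symm
      have h2 : (a - Finsupp.single j 1).degree = p := by
        have h3 := congrArg Finsupp.degree h1
        rw [map_add, Finsupp.degree_single] at h3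
        omega
      have h4 : monomial a (1 : K) = X j * monomial (a - Finsupp.single j 1) 1 := by
        rw [X, monomial_mul, one_mul, add_comm, tsub_add_cancel_of_le hle]
      rw [h4, map_mul, Module.End.mul_apply, ih _ h2 (by omega), hE]
      have h5 : ℓ ^ (k - p) * monomial (a - Finsupp.single j 1) (1 : K) =
          ℓ * (ℓ ^ (k - (p + 1)) * monomial (a - Finsupp.single j 1) (1 : K)) := by
        rw [← mul_assoc, ← pow_succ', show k - (p + 1) + 1 = k - p by omega]
      have h6 : ℓ ^ (k - (p + 1)) * (X j * monomial (a - Finsupp.single j 1) (1 : K)) =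
          X j * (ℓ ^ (k - (p + 1)) * monomial (a - Finsupp.single j 1) (1 : K)) := by ring
      rw [h5, h6]
      apply hθ'
      have h7 := (hpow (k - (p + 1))).mul (isHomogeneous_monomial (1 : K) h2)
      rwa [show k - (p + 1) + p = k - 1 by omega] at h7
  have hsum : ∀ g : MvPolynomial (Fin n) K, g = ∑ a ∈ g.support, coeff a g • monomial a (1 : K) := by
    intro g
    conv_lhs => rw [g.as_sum]
    refine Finset.sum_congr rfl fun a _ => ?_
    rw [smul_monomial, smul_eq_mul, mul_one]
  have hdeg : ∀ {p : ℕ} {g : MvPolynomial (Fin n) K}, g.IsHomogeneous p → ∀ a ∈ g.support,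
      a.degree = p := by
    intro p g hg a ha
    by_contra hne
    exact (mem_support_iff.1 ha) (hg.coeff_eq_zero hne)
  have key2 : ∀ p ≤ k, ∀ g : MvPolynomial (Fin n) K, g.IsHomogeneous p →
      E g v = cc (ℓ ^ (k - p) * g) := by
    intro p hp g hg
    conv_lhs => rw [hsum g]
    conv_rhs => rw [hsum g]
    rw [map_sum, Finset.mul_sum, map_sum, LinearMap.sum_apply]
    refine Finset.sum_congr rfl fun a ha => ?_
    rw [map_smul, LinearMap.smul_apply, key p a (hdeg hg a ha) hp, mul_smul_comm, map_smul]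
  -- one degree more
  have key3 : ∀ a : Fin n →₀ ℕ, a.degree = k + 1 → ∃ b : MvPolynomial (Fin n) K,
      b.IsHomogeneous k ∧ E (monomial a 1) v = cc b ∧ ℓ * b - monomial a 1 ∈ I := by
    intro a ha
    have hne : a ≠ 0 := by rintro rfl; simp at ha
    obtain ⟨j, hj⟩ := Finsupp.ne_iff.mp hne
    rw [Finsupp.coe_zero, Pi.zero_apply] at hj
    have hle : Finsupp.single j 1 ≤ a := by
      rw [Finsupp.single_le_iff]; omega
    have h1 : a = (a - Finsupp.single j 1) + Finsupp.single j 1 := (tsub_add_cancel_of_le hle).symm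
    have h2 : (a - Finsupp.single j 1).degree = k := by
      have h3 := congrArg Finsupp.degree h1
      rw [map_add, Finsupp.degree_single] at h3
      omega
    have h4 : monomial a (1 : K) = X j * monomial (a - Finsupp.single j 1) 1 := by
      rw [X, monomial_mul, one_mul, add_comm, tsub_add_cancel_of_le hle]
    have hm' := isHomogeneous_monomial (1 : K) h2
    obtain ⟨b, hb, hbc⟩ := hrep (cc (monomial (a - Finsupp.single j 1) (1 : K)))
    refine ⟨X j * b, hX j hb, ?_, ?_⟩
    · rw [h4, map_mul, Module.End.mul_apply, key k _ h2 le_rfl, Nat.sub_self, pow_zero, one_mul,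
        hE, ← hbc]
      exact hθ' j b hb
    · have h5 : ℓ * b - monomial (a - Finsupp.single j 1) (1 : K) ∈ I := by
        rw [← P1 _ ((hL hℓ hb).sub hm'), map_sub, sub_eq_zero]
        exact hbc
      have h6 : ℓ * (X j * b) - monomial a 1 =
          X j * (ℓ * b - monomial (a - Finsupp.single j 1) (1 : K)) := by
        rw [h4]
        ring
      rw [h6]
      exact I.mul_mem_left _ h5
  choose! β hβ1 hβ2 hβ3 using key3
  have hspan : ∀ x : M, ∃ g, E g v = x := by
    intro x
    obtain ⟨g, hg, rfl⟩ := P2 x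
    refine ⟨g, ?_⟩
    rw [key2 k le_rfl g hg, Nat.sub_self, pow_zero, one_mul]
  have hEc : ∀ f g, E f * E g = E g * E f := by
    intro f g; rw [← map_mul, ← map_mul, mul_comm]
  have hkill : ∀ f ∈ G, E f = 0 := by
    intro f hf
    obtain ⟨d, hd, hfd⟩ := hG f hf
    have hfv : E f v = 0 := by
      rcases Nat.lt_or_ge k d with hkd | hkd
      · have hdk : d = k + 1 := by omega
        subst hdk
        have hb : (∑ a ∈ f.support, coeff a f • β a).IsHomogeneous k := by
          apply IsHomogeneous.sum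
          intro a ha
          exact (homogeneousSubmodule (Fin n) K k).smul_mem _ (hβ1 a (hdeg hfd a ha))
        have h1 : E f v = cc (∑ a ∈ f.support, coeff a f • β a) := by
          conv_lhs => rw [hsum f]
          rw [map_sum, map_sum, LinearMap.sum_apply]
          refine Finset.sum_congr rfl fun a ha => ?_
          rw [map_smul, LinearMap.smul_apply, hβ2 a (hdeg hfd a ha), map_smul]
        rw [h1, P1 _ hb]
        apply hi _ hb
        have h2 : ℓ * (∑ a ∈ f.support, coeff a f • β a) =
            ∑ a ∈ f.support, coeff a f • (ℓ * β a - monomial a 1) + f := by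
          have h3 : f = ∑ a ∈ f.support, coeff a f • monomial a (1 : K) := hsum f
          have h4 : ∑ a ∈ f.support, coeff a f • (ℓ * β a - monomial a 1) =
              ∑ a ∈ f.support, coeff a f • (ℓ * β a) -
                ∑ a ∈ f.support, coeff a f • monomial a (1 : K) := by
            rw [← Finset.sum_sub_distrib]
            exact Finset.sum_congr rfl fun a _ => smul_sub _ _ _
          rw [h4, ← h3, sub_add_cancel, Finset.mul_sum]
          exact Finset.sum_congr rfl fun a _ => mul_smul_comm _ _ _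
        rw [h2]
        refine I.add_mem (I.sum_mem fun a ha => ?_) (hGI f hf)
        rw [smul_eq_C_mul]
        exact I.mul_mem_left _ (hβ3 a (hdeg hfd a ha))
      · rw [key2 d hkd f hfd, P1]
        · exact I.mul_mem_left _ (hGI f hf)
        · have h7 := (hpow (k - d)).mul hfd
          rwa [show k - d + d = k by omega] at h7
    apply LinearMap.ext
    intro x
    obtain ⟨g, rfl⟩ := hspan x
    have h1 : E f (E g v) = E g (E f v) := LinearMap.congr_fun (hEc f g) v
    rw [h1, hfv, map_zero, LinearMap.zero_apply]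
  have hker2 : Ideal.span G ≤ RingHom.ker (E : MvPolynomial (Fin n) K →ₐ[K] Module.End K M) := by
    rw [Ideal.span_le]
    intro f hf
    exact hkill f hf
  have h1 : E (ℓ ^ m) = 0 := hker2 hm
  have hEℓ : E ℓ = 1 := by
    apply LinearMap.ext
    intro x
    obtain ⟨b, hb, rfl⟩ := hrep x
    rw [Module.End.one_apply]
    have h2 : ∀ a ∈ ℓ.support, E (monomial a 1) (cc (ℓ * b)) = cc (monomial a 1 * b) := by
      intro a ha
      have had := hdeg hℓ a ha
      have hne : a ≠ 0 := by rintro rfl; simp at had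
      obtain ⟨j, hj⟩ := Finsupp.ne_iff.mp hne
      rw [Finsupp.coe_zero, Pi.zero_apply] at hj
      have hle : Finsupp.single j 1 ≤ a := by
        rw [Finsupp.single_le_iff]; omega
      have h1 : a = (a - Finsupp.single j 1) + Finsupp.single j 1 :=
        (tsub_add_cancel_of_le hle).symm
      have h2 : (a - Finsupp.single j 1).degree = 0 := by
        have h3 := congrArg Finsupp.degree h1
        rw [map_add, Finsupp.degree_single] at h3
        omega
      have h3 : a = Finsupp.single j 1 := by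
        rw [(Finsupp.degree_eq_zero_iff _).mp h2, zero_add] at h1
        exact h1
      have h4 : monomial a (1 : K) = X j := by rw [h3]; rfl
      rw [h4, hE]
      exact hθ' j b hb
    have h3 : E ℓ (cc (ℓ * b)) = cc (ℓ * b) := by
      have e1 : E ℓ (cc (ℓ * b)) = ∑ a ∈ ℓ.support, coeff a ℓ • E (monomial a 1) (cc (ℓ * b)) := by
        have e0 : E ℓ = ∑ a ∈ ℓ.support, coeff a ℓ • E (monomial a 1) := by
          conv_lhs => rw [hsum ℓ]
          rw [map_sum]
          refine Finset.sum_congr rfl fun a _ => ?_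
          rw [map_smul]
        rw [e0, LinearMap.sum_apply]
        rfl
      have e2 : cc (ℓ * b) = ∑ a ∈ ℓ.support, coeff a ℓ • cc (monomial a 1 * b) := by
        have e0 : ℓ * b = ∑ a ∈ ℓ.support, coeff a ℓ • (monomial a 1 * b) := by
          conv_lhs => rw [hsum ℓ]
          rw [Finset.sum_mul]
          refine Finset.sum_congr rfl fun a _ => ?_
          rw [smul_mul_assoc]
        rw [e0, map_sum]
        refine Finset.sum_congr rfl fun a _ => ?_
        rw [map_smul]
      rw [e1]
      conv_rhs => rw [e2]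
      exact Finset.sum_congr rfl fun a ha => by rw [h2 a ha]
    exact h3
  rw [map_pow, hEℓ, one_pow] at h1
  have h2 := LinearMap.congr_fun h1 x
  rwa [Module.End.one_apply, LinearMap.zero_apply] at h2

/-- Concrete form of `persist_lin`. -/
theorem persist_lin' {I : Ideal (MvPolynomial (Fin n) K)} {k : ℕ} (hk : 1 ≤ k)
    {ℓ : MvPolynomial (Fin n) K} (hℓ : ℓ.IsHomogeneous 1)
    (hs : ∀ h : MvPolynomial (Fin n) K, h.IsHomogeneous k → ∃ b : MvPolynomial (Fin n) K,
      b.IsHomogeneous (k - 1) ∧ h - ℓ * b ∈ I)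
    (hi : ∀ g : MvPolynomial (Fin n) K, g.IsHomogeneous k → ℓ * g ∈ I → g ∈ I)
    {G : Set (MvPolynomial (Fin n) K)} (hG : ∀ g ∈ G, ∃ d ≤ k + 1, g.IsHomogeneous d)
    (hGI : ∀ g ∈ G, g ∈ I) {m : ℕ} (hm : ℓ ^ m ∈ Ideal.span G) {g : MvPolynomial (Fin n) K}
    (hg : g.IsHomogeneous k) : g ∈ I := by
  let f : MvPolynomial (Fin n) K →ₗ[K] (MvPolynomial (Fin n) K ⧸ I) :=
    (Ideal.Quotient.mkₐ K I).toLinearMap ∘ₗ homogeneousComponent k
  have hf : ∀ g : MvPolynomial (Fin n) K, g.IsHomogeneous k → (f g = 0 ↔ g ∈ I) := by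
    intro g hg
    change Ideal.Quotient.mk I (homogeneousComponent k g) = 0 ↔ g ∈ I
    rw [homogeneousComponent_of_mem hg, if_pos rfl, Ideal.Quotient.eq_zero_iff_mem]
  have P1 : ∀ g : MvPolynomial (Fin n) K, g.IsHomogeneous k → (f.rangeRestrict g = 0 ↔ g ∈ I) := by
    intro g hg
    rw [← hf g hg]
    exact ⟨fun h => congrArg Subtype.val h, fun h => Subtype.ext h⟩
  have P2 : ∀ m : LinearMap.range f, ∃ g : MvPolynomial (Fin n) K, g.IsHomogeneous k ∧
      f.rangeRestrict g = m := by
    rintro ⟨_, g, rfl⟩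
    refine ⟨homogeneousComponent k g, homogeneousComponent_isHomogeneous _ _, ?_⟩
    apply Subtype.ext
    change Ideal.Quotient.mk I (homogeneousComponent k (homogeneousComponent k g)) =
      Ideal.Quotient.mk I (homogeneousComponent k g)
    rw [homogeneousComponent_of_mem (homogeneousComponent_isHomogeneous k g), if_pos rfl]
  exact (P1 g hg).mp (persist_lin f.rangeRestrict hk P1 P2 hℓ hs hi hG hGI hm _)

end Y219.EGH
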