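import Pool.Agent.Y219.EGH.Lin
import Pool.Agent.Y219.EGH.Pers

/-!
The Hilbert function of a Gorenstein quotient by forms of degree at most `a` without common zeros in
the upper range of degrees.
-/

open MvPolynomial
open Pool.Agent.W515.SLP (AnnP Deg annP_zero annP_of_gt annP_of_homog)
open H503R3.QCI (Homog comp_mul comp_mul_of_lt gr mem_gr)
open TH130CI

namespace Y219.EGH

variable {K : Type*} [Field K] {n : ℕ}

/-- the Hilbert function of the quotient by the annihilator of a functional -/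
noncomputable def hf (φ : MvPolynomial (Fin n) K →ₗ[K] K) (i : ℕ) : ℕ :=
  Module.finrank K (AA (gor φ) i)

/-- the pairing between two degrees -/
noncomputable def pr (φ : MvPolynomial (Fin n) K →ₗ[K] K) (i j : ℕ) :
    homogeneousSubmodule (Fin n) K i →ₗ[K] homogeneousSubmodule (Fin n) K j →ₗ[K] K :=
  LinearMap.mk₂ K (fun u v => φ ((u : MvPolynomial (Fin n) K) * (v : MvPolynomial (Fin n) K)))
    (by intro a b c; simp [add_mul])
    (by intro a b c; simp)
    (by intro a b c; simp [mul_add])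
    (by intro a b c; simp)

lemma pr_apply (φ : MvPolynomial (Fin n) K →ₗ[K] K) (i j : ℕ)
    (u : homogeneousSubmodule (Fin n) K i) (v : homogeneousSubmodule (Fin n) K j) :
    pr φ i j u v = φ ((u : MvPolynomial (Fin n) K) * (v : MvPolynomial (Fin n) K)) := rfl

instance finHom (i : ℕ) : Module.Finite K (homogeneousSubmodule (Fin n) K i) :=
  Module.Finite.iff_fg.2 (homogeneousSubmodule_fg _ _ i)

/-- the rank of the pairing -/
lemma finrank_range_pr {φ : MvPolynomial (Fin n) K →ₗ[K] K} {s : ℕ} (hφ : Deg φ s) {i j : ℕ}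
    (hij : i + j = s) : Module.finrank K (LinearMap.range (pr φ i j)) = hf φ i := by
  have h1 := LinearMap.finrank_range_add_finrank_ker (pr φ i j)
  have h2 : (LinearMap.ker (pr φ i j)).map (homogeneousSubmodule (Fin n) K i).subtype =
      gr (gor φ) i := by
    ext x
    constructor
    · rintro ⟨y, hy, rfl⟩
      refine mem_gr.mpr ⟨?_, y.2⟩
      apply annP_of_homog hφ (by omega) y.2
      intro v hv
      rw [show s - i = j by omega] at hv
      exact LinearMap.congr_fun hy ⟨v, hv⟩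
    · intro hx
      obtain ⟨hx1, hx2⟩ := mem_gr.mp hx
      refine ⟨⟨x, hx2⟩, ?_, rfl⟩
      apply LinearMap.ext
      intro v
      exact hx1 v
  have h3 := finrank_AA (I := gor φ) i
  rw [← h2, H503R3.QCI.finrank_map_of_inj _ (Submodule.injective_subtype _)] at h3
  rw [hf]
  omega

/-- the transpose has the same rank -/
lemma finrank_range_flip {V W : Type*} [AddCommGroup V] [Module K V] [AddCommGroup W] [Module K W]
    [Module.Finite K V] [Module.Finite K W] (B : V →ₗ[K] W →ₗ[K] K) :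
    Module.finrank K (LinearMap.range B.flip) = Module.finrank K (LinearMap.range B) := by
  have h1 : B.flip = (B : V →ₗ[K] Module.Dual K W).dualMap ∘ₗ (Module.evalEquiv K W).toLinearMap := by
    apply LinearMap.ext
    intro w
    apply LinearMap.ext
    intro v
    rfl
  rw [h1, LinearMap.range_comp, LinearEquiv.range, Submodule.map_top,
    LinearMap.finrank_range_dualMap_eq_finrank_range]

/-- the Hilbert function is symmetric -/
lemma hf_symm {φ : MvPolynomial (Fin n) K →ₗ[K] K} {s : ℕ} (hφ : Deg φ s) {i j : ℕ}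
    (hij : i + j = s) : hf φ i = hf φ j := by
  rw [← finrank_range_pr hφ hij, ← finrank_range_pr hφ (i := j) (j := i) (by omega)]
  have h1 : pr φ j i = (pr φ i j).flip := by
    apply LinearMap.ext
    intro v
    apply LinearMap.ext
    intro u
    rw [LinearMap.flip_apply, pr_apply, pr_apply, mul_comm]
  rw [h1, finrank_range_flip]

/-- the contractions of the functional -/
noncomputable def ctr (φ : MvPolynomial (Fin n) K →ₗ[K] K) :
    MvPolynomial (Fin n) K →ₗ[K] (MvPolynomial (Fin n) K →ₗ[K] K) :=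
  LinearMap.mk₂ K (fun u v => φ (u * v))
    (by intro a b c; simp [add_mul])
    (by intro a b c; simp)
    (by intro a b c; simp [mul_add])
    (by intro a b c; simp)

lemma ctr_apply (φ : MvPolynomial (Fin n) K →ₗ[K] K) (u v : MvPolynomial (Fin n) K) :
    ctr φ u v = φ (u * v) := rfl

lemma finrank_ctr {φ : MvPolynomial (Fin n) K →ₗ[K] K} (i : ℕ) :
    Module.finrank K ((homogeneousSubmodule (Fin n) K i).map (ctr φ)) = hf φ i := by
  have h1 := LinearMap.finrank_range_add_finrank_ker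
    (ctr φ ∘ₗ (homogeneousSubmodule (Fin n) K i).subtype)
  have h2 : (LinearMap.ker (ctr φ ∘ₗ (homogeneousSubmodule (Fin n) K i).subtype)).map
      (homogeneousSubmodule (Fin n) K i).subtype = gr (gor φ) i := by
    ext x
    constructor
    · rintro ⟨y, hy, rfl⟩
      exact mem_gr.mpr ⟨fun v => LinearMap.congr_fun hy v, y.2⟩
    · intro hx
      obtain ⟨hx1, hx2⟩ := mem_gr.mp hx
      exact ⟨⟨x, hx2⟩, LinearMap.ext hx1, rfl⟩
  have h3 := finrank_AA (I := gor φ) i
  rw [← h2, H503R3.QCI.finrank_map_of_inj _ (Submodule.injective_subtype _)] at h3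
  rw [LinearMap.range_comp, Submodule.range_subtype] at h1
  rw [hf]
  omega

/-- small values of the Hilbert function: a linear form is onto -/
theorem exists_lin_onto [Infinite K] {φ : MvPolynomial (Fin n) K →ₗ[K] K} {s : ℕ} (hφ : Deg φ s)
    {i : ℕ} (hi1 : 1 ≤ i) (his : i ≤ s) (hi : hf φ i ≤ i) :
    ∃ ℓ : MvPolynomial (Fin n) K, ℓ.IsHomogeneous 1 ∧
      ∀ h : MvPolynomial (Fin n) K, h.IsHomogeneous i → ∃ b : MvPolynomial (Fin n) K,
        b.IsHomogeneous (i - 1) ∧ h - ℓ * b ∈ gor φ := by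
  have hW : Module.finrank K ((homogeneousSubmodule (Fin n) K (s - i)).map (ctr φ)) ≤ i := by
    rw [finrank_ctr, ← hf_symm hφ (i := i) (by omega)]
    exact hi
  obtain ⟨ℓ, hℓ, h⟩ := exists_lin i ((homogeneousSubmodule (Fin n) K (s - i)).map (ctr φ)) (by
    rintro _ ⟨u, hu, rfl⟩
    intro j hj g hg
    rw [ctr_apply]
    exact hφ (s - i + j) (by omega) _ (IsHomogeneous.mul hu hg)) (Module.Finite.map _ _) hW
  refine ⟨ℓ, hℓ, fun g hg => ?_⟩
  have hg' : g.IsHomogeneous ((i - 1) + 1) := by rwa [Nat.sub_add_cancel hi1]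
  obtain ⟨b, hb, hb'⟩ := surj_of_inj hφ hℓ (i := i - 1) (k := 1) (by omega) (by
    intro u hu hann
    rw [pow_one] at hann
    rw [show s - (i - 1 + 1) = s - i by omega] at hu
    have h1 := h (ctr φ u) ⟨u, hu, rfl⟩ (by
      intro g
      rw [ctr_apply, ← hann g]
      congr 1
      ring)
    intro v
    exact LinearMap.congr_fun h1 v) hg'
  rw [pow_one] at hb'
  exact ⟨b, hb, hb'⟩

/-- a linear form which is onto in one degree is onto in the next one -/
lemma onto_succ {I : Ideal (MvPolynomial (Fin n) K)} {ℓ : MvPolynomial (Fin n) K} {i : ℕ}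
    (hi1 : 1 ≤ i)
    (h : ∀ h : MvPolynomial (Fin n) K, h.IsHomogeneous i → ∃ b : MvPolynomial (Fin n) K,
        b.IsHomogeneous (i - 1) ∧ h - ℓ * b ∈ I) :
    ∀ h : MvPolynomial (Fin n) K, h.IsHomogeneous (i + 1) → ∃ b : MvPolynomial (Fin n) K,
        b.IsHomogeneous i ∧ h - ℓ * b ∈ I := by
  classical
  have hmon : ∀ a : Fin n →₀ ℕ, a.degree = i + 1 → ∃ b : MvPolynomial (Fin n) K,
      b.IsHomogeneous i ∧ monomial a 1 - ℓ * b ∈ I := by
    intro a ha
    have hne : a ≠ 0 := by rintro rfl; simp at ha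
    obtain ⟨j, hj⟩ := Finsupp.ne_iff.mp hne
    rw [Finsupp.coe_zero, Pi.zero_apply] at hj
    have hle : Finsupp.single j 1 ≤ a := by
      rw [Finsupp.single_le_iff]; omega
    have h1 : a = (a - Finsupp.single j 1) + Finsupp.single j 1 := (tsub_add_cancel_of_le hle).symm
    have h2 : (a - Finsupp.single j 1).degree = i := by
      have h3 := congrArg Finsupp.degree h1
      rw [map_add, Finsupp.degree_single] at h3
      omega
    have h4 : monomial a (1 : K) = X j * monomial (a - Finsupp.single j 1) 1 := by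
      rw [X, monomial_mul, one_mul, add_comm, tsub_add_cancel_of_le hle]
    obtain ⟨b, hb, hb'⟩ := h _ (isHomogeneous_monomial (1 : K) h2)
    refine ⟨X j * b, ?_, ?_⟩
    · have := (isHomogeneous_X K j).mul hb
      rwa [show 1 + (i - 1) = i by omega] at this
    · have h5 : monomial a (1 : K) - ℓ * (X j * b) =
          X j * (monomial (a - Finsupp.single j 1) 1 - ℓ * b) := by
        rw [h4]
        ring
      rw [h5]
      exact I.mul_mem_left _ hb'
  choose! β hβ1 hβ2 using hmon
  intro g hg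
  have hdeg : ∀ a ∈ g.support, a.degree = i + 1 := by
    intro a ha
    by_contra hne
    exact (mem_support_iff.1 ha) (hg.coeff_eq_zero hne)
  refine ⟨∑ a ∈ g.support, coeff a g • β a, ?_, ?_⟩
  · apply IsHomogeneous.sum
    intro a ha
    exact (homogeneousSubmodule (Fin n) K i).smul_mem _ (hβ1 a (hdeg a ha))
  · have h3 : g = ∑ a ∈ g.support, coeff a g • monomial a (1 : K) := by
      conv_lhs => rw [g.as_sum]
      refine Finset.sum_congr rfl fun a _ => ?_
      rw [smul_monomial, smul_eq_mul, mul_one]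
    have h4 : g - ℓ * ∑ a ∈ g.support, coeff a g • β a =
        ∑ a ∈ g.support, coeff a g • (monomial a 1 - ℓ * β a) := by
      have h5 : ∑ a ∈ g.support, coeff a g • (monomial a 1 - ℓ * β a) =
          ∑ a ∈ g.support, coeff a g • monomial a (1 : K) -
            ∑ a ∈ g.support, coeff a g • (ℓ * β a) := by
        rw [← Finset.sum_sub_distrib]
        exact Finset.sum_congr rfl fun a _ => smul_sub _ _ _
      rw [h5, ← h3, Finset.mul_sum]
      congr 1
      exact Finset.sum_congr rfl fun a _ => mul_smul_comm _ _ _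
    rw [h4]
    refine I.sum_mem fun a ha => ?_
    rw [smul_eq_C_mul]
    exact I.mul_mem_left _ (hβ2 a (hdeg a ha))

/-- **Growth of the Hilbert function.** -/
theorem hf_succ [Infinite K] {φ : MvPolynomial (Fin n) K →ₗ[K] K} {s : ℕ} (hφ : Deg φ s)
    {i : ℕ} (hi1 : 1 ≤ i) (his : i ≤ s) (hi : hf φ i ≤ i) :
    hf φ (i + 1) ≤ hf φ i ∧ ∀ a : ℕ, a ≤ i + 1 → ∀ G : Set (MvPolynomial (Fin n) K),
      (∀ g ∈ G, ∃ d ≤ a, g.IsHomogeneous d) → (∀ g ∈ G, g ∈ gor φ) →
      (∀ ℓ : MvPolynomial (Fin n) K, ℓ.IsHomogeneous 1 → ∃ m, ℓ ^ m ∈ Ideal.span G) →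
      1 ≤ hf φ i → hf φ (i + 1) < hf φ i := by
  obtain ⟨ℓ, hℓ, honto⟩ := exists_lin_onto hφ hi1 his hi
  have honto1 := onto_succ hi1 honto
  have e0 : hf φ i = Module.finrank K (AA (gor φ) i) := rfl
  have e1 : hf φ (i + 1) = Module.finrank K (AA (gor φ) (i + 1)) := rfl
  let μ : (MvPolynomial (Fin n) K ⧸ gor φ) →ₗ[K] (MvPolynomial (Fin n) K ⧸ gor φ) :=
    LinearMap.mulLeft K (Ideal.Quotient.mk (gor φ) ℓ)
  have hmap : (AA (gor φ) i).map μ = AA (gor φ) (i + 1) := by
    ext x
    constructor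
    · rintro ⟨y, hy, rfl⟩
      obtain ⟨g, hg, rfl⟩ := mem_AA.mp hy
      refine mem_AA.mpr ⟨ℓ * g, ?_, ?_⟩
      · have := hℓ.mul hg
        rwa [add_comm] at this
      · rw [map_mul]
        rfl
    · intro hx
      obtain ⟨g, hg, rfl⟩ := mem_AA.mp hx
      obtain ⟨b, hb, hb'⟩ := honto1 g hg
      refine ⟨Ideal.Quotient.mk (gor φ) b, mem_AA.mpr ⟨b, hb, rfl⟩, ?_⟩
      change Ideal.Quotient.mk (gor φ) ℓ * Ideal.Quotient.mk (gor φ) b = Ideal.Quotient.mk (gor φ) g
      rw [← map_mul]
      exact ((Ideal.Quotient.mk_eq_mk_iff_sub_mem _ _).mpr hb').symm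
  have hfin : Module.Finite K (AA (gor φ) i) := finite_AA' (gor φ) i
  have hsplit := dim_split (AA (gor φ) i) μ
  rw [hmap] at hsplit
  refine ⟨by omega, fun a ha G hG hGI hpow hpos => ?_⟩
  by_contra hcon
  have hker : Module.finrank K (AA (gor φ) i ⊓ LinearMap.ker μ :
      Submodule K (MvPolynomial (Fin n) K ⧸ gor φ)) = 0 := by omega
  have hfin' : Module.Finite K (AA (gor φ) i ⊓ LinearMap.ker μ :
      Submodule K (MvPolynomial (Fin n) K ⧸ gor φ)) := Submodule.finiteDimensional_inf_left _ _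
  rw [Submodule.finrank_eq_zero] at hker
  have hinj : ∀ g : MvPolynomial (Fin n) K, g.IsHomogeneous i → ℓ * g ∈ gor φ → g ∈ gor φ := by
    intro g hg hgI
    have h1 : Ideal.Quotient.mk (gor φ) g ∈ AA (gor φ) i ⊓ LinearMap.ker μ := by
      refine ⟨mem_AA.mpr ⟨g, hg, rfl⟩, ?_⟩
      change Ideal.Quotient.mk (gor φ) ℓ * Ideal.Quotient.mk (gor φ) g = 0
      rw [← map_mul]
      exact Ideal.Quotient.eq_zero_iff_mem.mpr hgI
    rw [hker, Submodule.mem_bot] at h1
    exact Ideal.Quotient.eq_zero_iff_mem.mp h1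
  obtain ⟨m, hm⟩ := hpow ℓ hℓ
  have hall : ∀ g : MvPolynomial (Fin n) K, g.IsHomogeneous i → g ∈ gor φ := by
    intro g hg
    refine persist_lin' hi1 hℓ honto hinj (G := G) (fun g hg => ?_) hGI hm hg
    obtain ⟨d, hd, hgd⟩ := hG g hg
    exact ⟨d, by omega, hgd⟩
  have hbot : AA (gor φ) i = ⊥ := by
    rw [eq_bot_iff]
    intro x hx
    obtain ⟨g, hg, rfl⟩ := mem_AA.mp hx
    exact Ideal.Quotient.eq_zero_iff_mem.mpr (hall g hg)
  rw [e0, hbot, finrank_bot] at hpos
  omega

end Y219.EGH
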