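import Pool.Agent.TH130.CI.Len2

/-!
A general linear form does not kill any functional of a small space of functionals of degree `i`.
-/

open MvPolynomial
open Pool.Agent.W515.SLP (AnnP Deg annP_zero annP_of_gt annP_of_homog)

namespace Y219.EGH

section abs

variable {K : Type*} [Field K]

/-- injectivity is an open condition -/
lemma exists_inj_add [Infinite K] {V U : Type*} [AddCommGroup V] [Module K V] [AddCommGroup U]
    [Module K U] [Module.Finite K V] (A B : V →ₗ[K] U) (hA : Function.Injective A) :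
    ∃ c : K, c ≠ 0 ∧ Function.Injective (A + c • B) := by
  obtain ⟨π, hπ⟩ := A.exists_leftInverse_of_injective (LinearMap.ker_eq_bot.2 hA)
  let N : Module.End K V := π ∘ₗ B
  have hfin : Set.Finite {μ : K | N.HasEigenvalue μ} := Module.End.finite_hasEigenvalue N
  obtain ⟨μ, hμ⟩ := ((hfin.union (Set.finite_singleton 0)).infinite_compl).nonempty
  rw [Set.mem_compl_iff, Set.mem_union, not_or, Set.mem_singleton_iff] at hμ
  refine ⟨-μ⁻¹, neg_ne_zero.2 (inv_ne_zero hμ.2), ?_⟩
  rw [← LinearMap.ker_eq_bot, LinearMap.ker_eq_bot']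
  intro v hv
  by_contra hv0
  apply hμ.1
  refine Module.End.hasEigenvalue_of_hasEigenvector (x := v) ⟨?_, hv0⟩
  rw [Module.End.mem_eigenspace_iff]
  have h1 := congrArg π hv
  rw [LinearMap.add_apply, LinearMap.smul_apply, map_add, map_smul, map_zero] at h1
  have h2 : π (A v) = v := LinearMap.congr_fun hπ v
  rw [h2] at h1
  have h3 : N v = π (B v) := rfl
  rw [h3]
  have h4 : μ • (v + (-μ⁻¹) • π (B v)) = 0 := by rw [h1, smul_zero]
  rw [smul_add, smul_smul, mul_neg, mul_inv_cancel₀ hμ.2, neg_one_smul] at h4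
  exact (eq_of_sub_eq_zero (by rw [sub_eq_add_neg]; exact h4)).symm

/-- dimensions of the image and the kernel -/
lemma dim_split {V : Type*} [AddCommGroup V] [Module K V] (W : Submodule K V)
    [Module.Finite K W] (f : V →ₗ[K] V) :
    Module.finrank K (W.map f) + Module.finrank K (W ⊓ LinearMap.ker f : Submodule K V) =
      Module.finrank K W := by
  have h1 := LinearMap.finrank_range_add_finrank_ker (f ∘ₗ W.subtype)
  have h0 : LinearMap.range (f ∘ₗ W.subtype) = W.map f := by
    rw [LinearMap.range_comp, Submodule.range_subtype]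
  have h2 : (LinearMap.ker (f ∘ₗ W.subtype)).map W.subtype = W ⊓ LinearMap.ker f := by
    ext x
    constructor
    · rintro ⟨y, hy, rfl⟩
      exact ⟨y.2, hy⟩
    · intro hx
      exact ⟨⟨x, hx.1⟩, hx.2, rfl⟩
  rw [h0] at h1
  rw [← h2, H503R3.QCI.finrank_map_of_inj _ (Submodule.injective_subtype _)]
  exact h1

/-- A space of dimension at most `i` in degree `i`: there is an operator of degree minus one which
is injective on it. -/
theorem exists_op [Infinite K] {V R1 : Type*} [AddCommGroup V] [Module K V] [AddCommGroup R1]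
    [Module K R1] (T : R1 →ₗ[K] V →ₗ[K] V) (hcomm : ∀ x y F, T x (T y F) = T y (T x F))
    (P : ℕ → Submodule K V) (hP : ∀ i x F, F ∈ P (i + 1) → T x F ∈ P i)
    (h0 : ∀ i F, F ∈ P (i + 1) → (∀ x, T x F = 0) → F = 0) (i : ℕ) :
    ∀ W : Submodule K V, W ≤ P i → Module.Finite K W → Module.finrank K W ≤ i →
      ∃ x : R1, ∀ F ∈ W, T x F = 0 → F = 0 := by
  classical
  induction i with
  | zero =>
    intro W _ hfin hW
    have h1 : W = ⊥ := Submodule.finrank_eq_zero.1 (Nat.le_zero.1 hW)
    refine ⟨0, fun F hF _ => ?_⟩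
    rw [h1, Submodule.mem_bot] at hF
    exact hF
  | succ i ih =>
    intro W hWd hfin hW
    by_contra hcon
    push Not at hcon
    -- an operator with minimal kernel
    have hex : ∃ d, ∃ ℓ : R1,
        Module.finrank K (W ⊓ LinearMap.ker (T ℓ) : Submodule K V) = d := ⟨_, 0, rfl⟩
    obtain ⟨ℓ, hd⟩ := Nat.find_spec hex
    have hmin : ∀ ℓ' : R1,
        Module.finrank K (W ⊓ LinearMap.ker (T ℓ) : Submodule K V) ≤
        Module.finrank K (W ⊓ LinearMap.ker (T ℓ') : Submodule K V) := by
      intro ℓ'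
      rw [hd]
      exact Nat.find_min' hex ⟨ℓ', rfl⟩
    have hfV : Module.Finite K (W ⊓ LinearMap.ker (T ℓ) : Submodule K V) :=
      Submodule.finiteDimensional_inf_left _ _
    obtain ⟨F0, hF0W, hF0, hF00⟩ := hcon ℓ
    have hF0V : F0 ∈ W ⊓ LinearMap.ker (T ℓ) := ⟨hF0W, hF0⟩
    have hV1 : 1 ≤ Module.finrank K (W ⊓ LinearMap.ker (T ℓ) : Submodule K V) := by
      rw [Nat.one_le_iff_ne_zero, Ne, Submodule.finrank_eq_zero]
      intro h0
      rw [h0, Submodule.mem_bot] at hF0V
      exact hF00 hF0V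
    have hfW' : Module.Finite K (W.map (T ℓ)) := Module.Finite.map _ _
    have hdim := dim_split W (T ℓ)
    obtain ⟨ℓ', hinj⟩ := ih (W.map (T ℓ)) (by
      rintro _ ⟨F, hF, rfl⟩
      exact hP i ℓ F (hWd hF)) hfW' (by omega)
    have key : ∀ ℓ'' : R1, (∀ F ∈ W.map (T ℓ), T ℓ'' F = 0 → F = 0) →
        ∀ F ∈ W ⊓ LinearMap.ker (T ℓ), T ℓ'' F = 0 := by
      intro ℓ'' h F hF
      have hle : W ⊓ LinearMap.ker (T ℓ'') ≤ W ⊓ LinearMap.ker (T ℓ) := by
        rintro G ⟨hG, hG'⟩
        refine ⟨hG, h _ ⟨G, hG, rfl⟩ ?_⟩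
        rw [hcomm, (hG' : T ℓ'' G = 0), map_zero]
      have heq := Submodule.eq_of_le_of_finrank_le hle (hmin ℓ'')
      rw [← heq] at hF
      exact hF.2
    have hk1 := key ℓ' hinj
    apply hF00
    apply h0 i F0 (hWd hF0W)
    intro x
    obtain ⟨c, hc, hcinj⟩ := exists_inj_add (T ℓ' ∘ₗ (W.map (T ℓ)).subtype)
      (T x ∘ₗ (W.map (T ℓ)).subtype) (by
      rw [← LinearMap.ker_eq_bot, LinearMap.ker_eq_bot']
      intro m hm
      exact Subtype.ext (hinj m m.2 hm))
    have hk2 := key (ℓ' + c • x) (by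
      intro F hF h0
      have h1 := hcinj (a₁ := ⟨F, hF⟩) (a₂ := 0) (by
        rw [map_zero, ← h0, map_add, map_smul]
        rfl)
      exact congrArg Subtype.val h1) F0 hF0V
    rw [map_add, map_smul, LinearMap.add_apply, hk1 F0 hF0V, zero_add, LinearMap.smul_apply] at hk2
    exact (smul_eq_zero.1 hk2).resolve_left hc

end abs

variable {K : Type*} [Field K] {n : ℕ}

/-- contraction of functionals by linear forms -/
noncomputable def T : homogeneousSubmodule (Fin n) K 1 →ₗ[K]
    (MvPolynomial (Fin n) K →ₗ[K] K) →ₗ[K] (MvPolynomial (Fin n) K →ₗ[K] K) :=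
  LinearMap.mk₂ K (fun ℓ F => F ∘ₗ LinearMap.mulLeft K (ℓ : MvPolynomial (Fin n) K))
    (by
      intro a b F
      apply LinearMap.ext
      intro g
      simp [add_mul])
    (by
      intro c a F
      apply LinearMap.ext
      intro g
      simp)
    (by
      intro a F G
      apply LinearMap.ext
      intro g
      simp)
    (by
      intro c a F
      apply LinearMap.ext
      intro g
      simp)

lemma T_apply (ℓ : homogeneousSubmodule (Fin n) K 1) (F : MvPolynomial (Fin n) K →ₗ[K] K)
    (g : MvPolynomial (Fin n) K) : T ℓ F g = F ((ℓ : MvPolynomial (Fin n) K) * g) := rfl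

/-- functionals of degree `i` -/
def PP (i : ℕ) : Submodule K (MvPolynomial (Fin n) K →ₗ[K] K) where
  carrier := {F | Deg F i}
  add_mem' := by
    intro F G hF hG j hj g hg
    rw [LinearMap.add_apply, hF j hj g hg, hG j hj g hg, add_zero]
  zero_mem' := fun j _ g _ => rfl
  smul_mem' := by
    intro c F hF j hj g hg
    rw [LinearMap.smul_apply, hF j hj g hg, smul_zero]

lemma eq_zero_of_T {i : ℕ} {F : MvPolynomial (Fin n) K →ₗ[K] K} (hF : Deg F (i + 1))
    (h : ∀ ℓ, T ℓ F = 0) : F = 0 := by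
  apply LinearMap.ext
  intro g
  rw [g.as_sum, map_sum]
  refine Finset.sum_eq_zero fun a _ => ?_
  by_cases ha : a.degree = i + 1
  · have hane : a ≠ 0 := by rintro rfl; simp at ha
    obtain ⟨j, hj⟩ := Finsupp.ne_iff.mp hane
    rw [Finsupp.coe_zero, Pi.zero_apply] at hj
    have hle1 : Finsupp.single j 1 ≤ a := by
      rw [Finsupp.single_le_iff]; omega
    have h4 : monomial a (coeff a g) = X j * monomial (a - Finsupp.single j 1) (coeff a g) := by
      rw [X, monomial_mul, one_mul, add_comm, tsub_add_cancel_of_le hle1]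
    have h5 := LinearMap.congr_fun (h ⟨X j, isHomogeneous_X K j⟩)
      (monomial (a - Finsupp.single j 1) (coeff a g))
    rw [h4]
    exact h5
  · exact hF _ ha _ (isHomogeneous_monomial _ rfl)

/-- A space of dimension at most `i` of functionals of degree `i`: there is a linear form which does
not kill any nonzero element. -/
theorem exists_lin [Infinite K] (i : ℕ) (W : Submodule K (MvPolynomial (Fin n) K →ₗ[K] K))
    (hW : ∀ F ∈ W, Deg F i) (hfin : Module.Finite K W) (hd : Module.finrank K W ≤ i) :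
    ∃ ℓ : MvPolynomial (Fin n) K, ℓ.IsHomogeneous 1 ∧
      ∀ F ∈ W, (∀ g, F (ℓ * g) = 0) → F = 0 := by
  obtain ⟨ℓ, h⟩ := exists_op (T (K := K) (n := n)) (by
    intro x y F
    apply LinearMap.ext
    intro g
    simp only [T_apply]
    congr 1
    ring) PP (by
      intro i x F hF j hj g hg
      rw [T_apply]
      exact hF (1 + j) (by omega) _ (x.2.mul hg)) (fun i F hF h => eq_zero_of_T hF h) i W hW
      hfin hd
  exact ⟨ℓ, ℓ.2, fun F hF hg => h F hF (LinearMap.ext hg)⟩

end Y219.EGH
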